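import Pool.Agent.H570R2.Modp.Stubs

/-!
# The formula as a coefficient (task SA of `h570b_tasks`)
-/

namespace Pool.Agent.H782R2.Modp

open Pool.Agent.NPC.Cnt Pool.Agent.H549R2.PM Pool.Agent.H570R2.Mono

/-! ### The operator `Ev` -/

theorem Ev_add (v : ℕ) (f g : MvPolynomial ℕ ℤ) : Ev v (f + g) = Ev v f + Ev v g := by
  simp [Ev]

theorem Ev_monomial (v : ℕ) (s : ℕ →₀ ℕ) (a : ℤ) :
    Ev v (MvPolynomial.monomial s a) =
      if s v = 1 then MvPolynomial.monomial (s - Finsupp.single v 1) a else 0 := by
  rw [Ev, MvPolynomial.pderiv_monomial, MvPolynomial.aeval_monomial]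
  by_cases h1 : s v = 1
  · rw [if_pos h1, h1]
    have hz : (s - Finsupp.single v 1 : ℕ →₀ ℕ) v = 0 := by
      rw [Finsupp.coe_tsub, Pi.sub_apply, Finsupp.single_eq_same, h1]
    have : (s - Finsupp.single v 1).prod
        (fun i k => (if i = v then (0 : MvPolynomial ℕ ℤ) else MvPolynomial.X i) ^ k) =
        (s - Finsupp.single v 1).prod (fun i k => (MvPolynomial.X i : MvPolynomial ℕ ℤ) ^ k) := by
      refine Finset.prod_congr rfl ?_
      intro i hi
      have hiv : i ≠ v := by
        rintro rfl
        rw [Finsupp.mem_support_iff] at hi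
        exact hi hz
      simp only [if_neg hiv]
    rw [this, MvPolynomial.algebraMap_eq, ← MvPolynomial.monomial_eq]
    simp
  · rw [if_neg h1]
    by_cases h0 : s v = 0
    · simp [h0]
    · have hz : (s - Finsupp.single v 1 : ℕ →₀ ℕ) v ≠ 0 := by
        rw [Finsupp.coe_tsub, Pi.sub_apply, Finsupp.single_eq_same]
        omega
      have : (s - Finsupp.single v 1).prod
          (fun i k => (if i = v then (0 : MvPolynomial ℕ ℤ) else MvPolynomial.X i) ^ k) = 0 := by
        refine Finset.prod_eq_zero (i := v) (Finsupp.mem_support_iff.2 hz) ?_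
        simp only [if_true]
        exact zero_pow hz
      rw [this, mul_zero]

theorem coeff_Ev (v : ℕ) (m : ℕ →₀ ℕ) (hm : m v = 0) (f : MvPolynomial ℕ ℤ) :
    MvPolynomial.coeff m (Ev v f) = MvPolynomial.coeff (m + Finsupp.single v 1) f := by
  induction f using MvPolynomial.induction_on' with
  | monomial s a =>
    rw [Ev_monomial]
    by_cases h1 : s v = 1
    · rw [if_pos h1, MvPolynomial.coeff_monomial, MvPolynomial.coeff_monomial]
      have h2 : s - Finsupp.single v 1 + Finsupp.single v 1 = s := by
        refine tsub_add_cancel_of_le ?_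
        rw [Finsupp.single_le_iff]
        omega
      by_cases h3 : s = m + Finsupp.single v 1
      · rw [if_pos h3, if_pos]
        rw [h3]
        exact add_tsub_cancel_right _ _
      · rw [if_neg h3, if_neg]
        intro h4
        apply h3
        rw [← h4, h2]
    · rw [if_neg h1, MvPolynomial.coeff_zero, MvPolynomial.coeff_monomial, if_neg]
      rintro rfl
      apply h1
      simp [hm]
  | add p q hp hq =>
    rw [Ev_add, MvPolynomial.coeff_add, MvPolynomial.coeff_add, hp, hq]

theorem Ev_mul_left (v : ℕ) (g f : MvPolynomial ℕ ℤ) (hg : v ∉ g.vars) :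
    Ev v (g * f) = g * Ev v f := by
  classical
  rw [Ev, MvPolynomial.pderiv_mul, MvPolynomial.pderiv_eq_zero_of_notMem_vars hg, zero_mul,
    zero_add, map_mul, Ev]
  congr 1
  have h := MvPolynomial.aeval_ite_mem_eq_self (R := ℤ) g (s := {i | i ≠ v})
    (by
      intro i hi
      simp only [Set.mem_ofPred_eq]
      rintro rfl
      exact hg hi)
  conv_rhs => rw [← h]
  congr 2
  funext i
  by_cases hiv : i = v
  · simp [hiv]
  · simp [hiv]

/-- polynomials in the variables below `o` -/
noncomputable abbrev Below (o : ℕ) : Subalgebra ℤ (MvPolynomial ℕ ℤ) :=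
  MvPolynomial.supported ℤ {v | v < o}

theorem not_mem_vars_of_below {o v : ℕ} {g : MvPolynomial ℕ ℤ} (hg : g ∈ Below o) (hv : o ≤ v) :
    v ∉ g.vars := by
  intro h
  have := MvPolynomial.mem_supported.1 hg h
  simp only [Set.mem_ofPred_eq] at this
  omega

theorem below_mono {o o' : ℕ} (h : o ≤ o') {g : MvPolynomial ℕ ℤ} (hg : g ∈ Below o) :
    g ∈ Below o' :=
  MvPolynomial.supported_mono (fun _ hx => lt_of_lt_of_le hx h) hg

theorem EvL_mul_left (l : List ℕ) (g f : MvPolynomial ℕ ℤ) (o : ℕ) (hg : g ∈ Below o)
    (hl : ∀ v ∈ l, o ≤ v) : EvL l (g * f) = g * EvL l f := by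
  induction l with
  | nil => rfl
  | cons v l ih =>
    have h1 : EvL (v :: l) (g * f) = Ev v (EvL l (g * f)) := rfl
    have h2 : EvL (v :: l) f = Ev v (EvL l f) := rfl
    rw [h1, h2, ih (fun w hw => hl w (List.mem_cons_of_mem _ hw)),
      Ev_mul_left _ _ _ (not_mem_vars_of_below hg (hl v List.mem_cons_self))]

theorem fullM_succ (n : ℕ) : fullM (n + 1) = fullM n + Finsupp.single n 1 := by
  rw [fullM, fullM, Finset.sum_range_succ]

theorem fullM_apply_of_le (n v : ℕ) (h : n ≤ v) : fullM n v = 0 := by
  rw [fullM, Finsupp.finsetSum_apply]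
  refine Finset.sum_eq_zero ?_
  intro i hi
  rw [Finset.mem_range] at hi
  rw [Finsupp.single_apply, if_neg (by omega)]

theorem coeff_EvL (n : ℕ) : ∀ (o : ℕ) (f : MvPolynomial ℕ ℤ),
    MvPolynomial.coeff (fullM (o + n)) f =
      MvPolynomial.coeff (fullM o) (EvL (List.range' o n) f) := by
  induction n with
  | zero => intro o f; rfl
  | succ n ih =>
    intro o f
    have h1 : EvL (List.range' o (n + 1)) f = Ev o (EvL (List.range' (o + 1) n) f) := rfl
    rw [h1, coeff_Ev o _ (fullM_apply_of_le o o le_rfl), ← fullM_succ, ← ih]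
    congr 2
    omega

/-! ### Supports -/

theorem form_below {o : ℕ} {r : List (ℕ × Bool)} (h : ∀ c ∈ r, c.1 < o) : form r ∈ Below o := by
  rw [form]
  refine Subalgebra.list_sum_mem _ ?_
  intro x hx
  rw [List.mem_map] at hx
  obtain ⟨c, hc, rfl⟩ := hx
  refine Subalgebra.mul_mem _ ?_ ?_
  · rw [← MvPolynomial.algebraMap_eq]
    exact Subalgebra.algebraMap_mem _ _
  · exact MvPolynomial.X_mem_supported.2 (h c hc)

theorem lin_below {o : ℕ} {l : List ℕ} (h : ∀ x ∈ l, x < o) : Pool.Agent.H570R2.Mono.lin l ∈ Below o := by
  rw [Pool.Agent.H570R2.Mono.lin]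
  refine Subalgebra.list_sum_mem _ ?_
  intro x hx
  rw [List.mem_map] at hx
  obtain ⟨c, hc, rfl⟩ := hx
  exact MvPolynomial.X_mem_supported.2 (h c hc)

/-- the tokens of a block are below `o` -/
def TokB (o : ℕ) (b : Blk) : Prop := ∀ ab ∈ b.2, (∀ x ∈ ab.1, x < o) ∧ ∀ x ∈ ab.2, x < o

theorem blockV_below {o : ℕ} {b : Blk} (h : TokB o b) : blockV b ∈ Below o := by
  rw [blockV]
  refine Subalgebra.add_mem _ ?_ (Subalgebra.mul_mem _ ?_ ?_)
  · refine Subalgebra.list_prod_mem _ ?_
    intro x hx
    rw [List.mem_map] at hx
    obtain ⟨ab, hab, rfl⟩ := hx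
    exact lin_below (h ab hab).1
  · rw [← MvPolynomial.algebraMap_eq]
    exact Subalgebra.algebraMap_mem _ _
  · refine Subalgebra.list_prod_mem _ ?_
    intro x hx
    rw [List.mem_map] at hx
    obtain ⟨ab, hab, rfl⟩ := hx
    exact lin_below (h ab hab).2

theorem chainR_lt (ps : List (List ℕ × List ℕ)) : ∀ (c T : ℕ),
    (∀ ab ∈ ps, (∀ x ∈ ab.1, x < T) ∧ ∀ x ∈ ab.2, x < T) → T ≤ c →
    ∀ r ∈ chainR c ps, ∀ y ∈ r, y.1 < c + 3 * ps.length + 1 := by
  induction ps with
  | nil => intro c T _ _ r hr; simp [chainR] at hr
  | cons ab ps ih =>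
    intro c T h hT r hr y hy
    obtain ⟨a, b⟩ := ab
    have h1 := h (a, b) List.mem_cons_self
    rw [chainR] at hr
    simp only [List.mem_cons] at hr
    have hlen : (((a, b) : List ℕ × List ℕ) :: ps).length = ps.length + 1 := rfl
    rw [hlen]
    rcases hr with rfl | rfl | rfl | rfl | hr
    · simp only [List.mem_cons, List.not_mem_nil, or_false] at hy
      rcases hy with rfl | rfl | rfl <;> simp <;> omega
    · simp only [List.mem_append, List.mem_map, List.mem_cons, List.not_mem_nil, or_false] at hy
      rcases hy with ⟨x, hx, rfl⟩ | rfl | rfl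
      · have := h1.1 x hx
        simp; omega
      · simp; omega
      · simp; omega
    · simp only [List.mem_append, List.mem_map, List.mem_cons, List.not_mem_nil, or_false] at hy
      rcases hy with ⟨x, hx, rfl⟩ | rfl | rfl
      · have := h1.2 x hx
        simp; omega
      · simp; omega
      · simp; omega
    · simp only [List.mem_cons, List.not_mem_nil, or_false] at hy
      rcases hy with rfl | rfl | rfl <;> simp <;> omega
    · have := ih (c + 3) T (fun ab hab => h ab (List.mem_cons_of_mem _ hab)) (by omega) r hr y hy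
      omega

theorem blockR_below {o T : ℕ} {b : Blk} (h : TokB T b) (hT : T ≤ o) :
    ((blockR o b).map form).prod ∈ Below (o + (3 * b.2.length + 1)) := by
  refine Subalgebra.list_prod_mem _ ?_
  intro x hx
  rw [List.mem_map] at hx
  obtain ⟨r, hr, rfl⟩ := hx
  refine form_below ?_
  intro c hc
  rw [blockR, List.mem_append] at hr
  rcases hr with hr | hr
  · have := chainR_lt b.2 o T h hT r hr c hc
    omega
  · simp only [List.mem_cons, List.not_mem_nil, or_false] at hr
    subst hr
    simp only [List.mem_cons, List.not_mem_nil, or_false] at hc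
    rcases hc with rfl | rfl <;> simp

/-! ### The list of blocks -/

theorem blocks_coeff (hB : StubBlock) (T : ℕ) (bs : List Blk) : ∀ (o : ℕ) (g : MvPolynomial ℕ ℤ),
    g ∈ Below o → T ≤ o → (∀ b ∈ bs, TokB T b) →
    MvPolynomial.coeff (fullM (o + (bs.map (fun b => 3 * b.2.length + 1)).sum))
      (g * ((blocksR o bs).map form).prod) =
    2 ^ (bs.map (fun b => b.2.length)).sum *
      MvPolynomial.coeff (fullM o) (g * (bs.map blockV).prod) := by
  induction bs with
  | nil =>
    intro o g _ _ _
    simp [blocksR]
  | cons b bs ih =>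
    intro o g hg hT hbs
    have hb : TokB T b := hbs b List.mem_cons_self
    have hbs' : ∀ b' ∈ bs, TokB T b' := fun b' h => hbs b' (List.mem_cons_of_mem _ h)
    have hR : blocksR o (b :: bs) = blockR o b ++ blocksR (o + 3 * b.2.length + 1) bs := rfl
    have e1 : g * ((blocksR o (b :: bs)).map form).prod =
        (g * ((blockR o b).map form).prod) *
          ((blocksR (o + (3 * b.2.length + 1)) bs).map form).prod := by
      rw [hR, List.map_append, List.prod_append, mul_assoc, ← Nat.add_assoc o]
    have e2 : o + ((b :: bs).map (fun b => 3 * b.2.length + 1)).sum =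
        (o + (3 * b.2.length + 1)) + (bs.map (fun b => 3 * b.2.length + 1)).sum := by
      rw [List.map_cons, List.sum_cons]
      omega
    rw [e1, e2, ih (o + (3 * b.2.length + 1)) (g * ((blockR o b).map form).prod)
      (Subalgebra.mul_mem _ (below_mono (by omega) hg) (blockR_below hb hT)) (by omega) hbs']
    have hh : g * (bs.map blockV).prod ∈ Below o := by
      refine Subalgebra.mul_mem _ hg (Subalgebra.list_prod_mem _ ?_)
      intro x hx
      rw [List.mem_map] at hx
      obtain ⟨b', hb', rfl⟩ := hx
      exact below_mono hT (blockV_below (hbs' b' hb'))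
    have e3 : g * ((blockR o b).map form).prod * (bs.map blockV).prod =
        (g * (bs.map blockV).prod) * ((blockR o b).map form).prod := by ring
    rw [e3, coeff_EvL (3 * b.2.length + 1) o,
      EvL_mul_left _ _ _ o hh (fun v hv => (List.mem_range'_1.1 hv).1),
      hB o b (fun ab hab => ⟨fun x hx => lt_of_lt_of_le ((hb ab hab).1 x hx) hT,
        fun x hx => lt_of_lt_of_le ((hb ab hab).2 x hx) hT⟩)]
    have e4 : g * (bs.map blockV).prod * (MvPolynomial.C (2 ^ b.2.length) * blockV b) =
        MvPolynomial.C (2 ^ b.2.length) * (g * ((b :: bs).map blockV).prod) := by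
      rw [List.map_cons, List.prod_cons]
      ring
    rw [e4, MvPolynomial.coeff_C_mul, List.map_cons (f := fun b : Blk => b.2.length),
      List.sum_cons, pow_add]
    ring

/-! ### Number and position of the tokens -/

theorem sum_count_map (l : List ℕ) (w : List ℕ) (f : ℕ → ℕ) (hl : l.Nodup)
    (hw : ∀ e ∈ w, f e ∈ l) :
    (l.map (fun v => (w.filter (fun e => decide (f e = v))).length)).sum = w.length := by
  induction w with
  | nil => simp
  | cons e w ih =>
    have h1 : ∀ v, ((e :: w).filter (fun e => decide (f e = v))).length =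
        (if f e = v then 1 else 0) + (w.filter (fun e => decide (f e = v))).length := by
      intro v
      rw [List.filter_cons]
      by_cases h : f e = v
      · simp [h]; omega
      · simp [h]
    simp only [h1]
    rw [List.sum_map_add, ih (fun e he => hw e (List.mem_cons_of_mem _ he))]
    have h2 : (l.map (fun v => if f e = v then 1 else 0)).sum = 1 := by
      have h3 : f e ∈ l := hw e List.mem_cons_self
      have h4 : (l.map (fun v => if f e = v then 1 else 0)).sum = l.count (f e) := by
        clear hl h3
        clear hw ih h1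
        induction l with
        | nil => simp
        | cons a l ih =>
          rw [List.map_cons, List.sum_cons, ih, List.count_cons]
          by_cases h : f e = a
          · simp [h]; omega
          · have h' : ¬ a = f e := fun h' => h h'.symm
            simp [h, h']
      rw [h4, List.count_eq_one_of_mem hl h3]
    rw [h2, List.length_cons]
    omega

theorem litAt_mem (φ : CNF ℕ) (e : ℕ) (he : e < nL φ) : (litAt φ e).2 ∈ vsL φ := by
  rw [vsL, mem_dd, List.mem_map]
  refine ⟨litAt φ e, ?_, rfl⟩
  rw [litAt, List.getD_eq_getElem _ _ he]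
  exact List.getElem_mem _

theorem startC_succ (φ : CNF ℕ) (k : ℕ) (hk : k < φ.length) :
    startC φ (k + 1) = startC φ k + (φ.getD k []).length := by
  rw [startC, startC, List.take_add_one, List.flatten_append, List.length_append,
    List.getD_eq_getElem _ _ hk]
  simp [List.getElem?_eq_getElem hk]

theorem startC_mono (φ : CNF ℕ) (k j : ℕ) (h : k ≤ j) : startC φ k ≤ startC φ j := by
  rw [startC, startC]
  refine List.Sublist.length_le ?_
  exact List.Sublist.flatten (List.take_sublist_take_left h)

theorem startC_length (φ : CNF ℕ) : startC φ φ.length = nL φ := by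
  rw [startC, List.take_length, nL]

theorem sum_clauses (φ : CNF ℕ) (n : ℕ) (hn : n ≤ φ.length) :
    ((List.range n).map (fun k => (φ.getD k []).length)).sum = startC φ n := by
  induction n with
  | zero => simp [startC]
  | succ n ih =>
    rw [List.range_succ, List.map_append, List.sum_append, ih (by omega), startC_succ φ n (by omega)]
    simp

theorem sum_blks (φ : CNF ℕ) : ((blks φ).map (fun b => b.2.length)).sum = 2 * nL φ := by
  rw [blks, List.map_append, List.sum_append, List.map_map, List.map_map]
  have h1 : ((vsL φ).map ((fun b : Blk => b.2.length) ∘ varBlk φ)).sum = nL φ := by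
    have := sum_count_map (vsL φ) (List.range (nL φ)) (fun e => (litAt φ e).2) (dd_nodup _)
      (fun e he => litAt_mem φ e (List.mem_range.1 he))
    rw [List.length_range] at this
    rw [← this]
    congr 1
    refine List.map_congr_left ?_
    intro v _
    simp only [Function.comp_apply, varBlk, List.length_map]
  have h2 : ((List.range φ.length).map ((fun b : Blk => b.2.length) ∘ clauseBlk φ)).sum = nL φ := by
    rw [← startC_length, ← sum_clauses φ φ.length le_rfl]
    congr 1
    refine List.map_congr_left ?_
    intro k _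
    simp only [Function.comp_apply, clauseBlk, List.length_map, List.length_range]
  rw [h1, h2]
  omega

theorem tok_blks (φ : CNF ℕ) : ∀ b ∈ blks φ, TokB (2 * nL φ) b := by
  intro b hb
  rw [blks, List.mem_append, List.mem_map, List.mem_map] at hb
  rcases hb with ⟨v, _, rfl⟩ | ⟨k, hk, rfl⟩
  · intro ab hab
    rw [varBlk, List.mem_map] at hab
    obtain ⟨e, he, rfl⟩ := hab
    have he2 : e < nL φ := List.mem_range.1 (List.mem_filter.1 he).1
    refine ⟨?_, ?_⟩
    · intro x hx
      rw [List.mem_singleton] at hx
      omega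
    · intro x hx
      rw [List.mem_singleton] at hx
      omega
  · intro ab hab
    rw [clauseBlk, List.mem_map] at hab
    obtain ⟨i, hi, rfl⟩ := hab
    rw [List.mem_range] at hi hk
    have h1 := startC_succ φ k hk
    have h2 := startC_mono φ (k + 1) φ.length hk
    rw [startC_length] at h2
    refine ⟨?_, ?_⟩
    · intro x hx
      simp only [litPair, List.mem_cons, List.not_mem_nil, or_false] at hx
      omega
    · intro x hx
      simp only [litPair, List.mem_cons, List.not_mem_nil, or_false] at hx
      rcases h : (litAt φ (startC φ k + i)).1 with _ | _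
      · rw [h, cond_false] at hx
        omega
      · rw [h, cond_true] at hx
        omega

/-- the formula as a coefficient -/
theorem stub_sat : StubSat := by
  intro hB hT φ
  have h := blocks_coeff hB (2 * nL φ) (blks φ) (2 * nL φ) 1 (Subalgebra.one_mem _) le_rfl
    (tok_blks φ)
  rw [one_mul, one_mul, hT φ, sum_blks, pow_mul] at h
  rw [nS, satR, h]
  norm_num

end Pool.Agent.H782R2.Modp
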